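import Pool.Agent.helper81.CI.Spec

/-!
# Project ci (MP_447e26): PNI
-/

set_option autoImplicit false

open MeasureTheory Set Filter Topology
open scoped ENNReal
open Pool.Agent.helper81.CW Pool.Agent.CL

namespace Pool.Agent.CI

theorem PNI_le {n : ℕ} (C : Set (E n)) (ρ : ℝ) : NN C ρ ≤ VV C ρ := by
  unfold NN VV
  refine iSup_le fun z => measure_mono ?_
  intro x hx
  exact hx.1

theorem PNI (hFAR : FAR_stmt) (hJ1 : J1_stmt) (hJ2 : J2_stmt) (hVON : VON_stmt) : PNI_stmt := by
  intro n C hC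
  obtain ⟨hd, -, -⟩ := hJ2 n C 1 hC
  have hne : C.Nonempty := hC.1
  have hco : IsCompact C := hC.2.1
  obtain ⟨h1, -, h3⟩ := hVON n C hC
  refine ⟨?_, fun ρ => (PNI_le C ρ).trans_lt (h3 ρ), ?_, ?_⟩
  · obtain ⟨z, R, hR0, hR, hz⟩ := hJ1 n C hco hne hd
    have hR1 : R < 1 := by nlinarith
    have hfz : far C z ≤ R := by
      obtain ⟨c, hc, hcz⟩ := (hFAR n C hco hne z z).2.1
      rw [← hcz, norm_sub_rev]
      exact hz c hc
    have hlip : ∀ y : E n, ‖y - z‖ ≤ 1 - R → far C y ≤ 1 := by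
      intro y hy
      have h4 := (hFAR n C hco hne y z).2.2.1
      have h5 := (abs_le.mp h4).2
      linarith
    have hsub : Metric.ball z (1 - R) ⊆ AZ C z 1 1 := by
      intro y hy
      rw [Metric.mem_ball, dist_eq_norm] at hy
      refine ⟨hlip y hy.le, hlip _ ?_⟩
      have h6 : (2 : ℝ) • z - y - z = -(y - z) := by
        rw [two_smul]; abel
      rw [h6, norm_neg]
      exact hy.le
    have h7 : 0 < volume (AZ C z 1 1) :=
      (Metric.measure_ball_pos volume z (by linarith)).trans_le (measure_mono hsub)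
    exact h7.trans_le (le_iSup (fun z : E n => volume (AZ C z 1 1)) z)
  · rw [← h1]
    exact PNI_le C 1
  · intro ρ σ hρσ
    unfold NN
    refine iSup_mono fun z => measure_mono ?_
    intro x hx
    exact ⟨hx.1.trans hρσ, hx.2.trans hρσ⟩

end Pool.Agent.CI
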